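import Pool.Agent.H37.CNE.Stmts
import Pool.Agent.H23.CND.SRS

set_option autoImplicit false

namespace Pool.CND

/-- the equation of `y` follows from the other two -/
theorem srl_aux (k K : Type) [Field k] [Field K] [Algebra k K] (p f q m : ℕ) (hp : p.Prime)
    (hchar : CharP k p) (hq : q = p ^ f) (S X Y : K) (hX : X ≠ 0)
    (h1 : X ^ (q ^ 2) + X = S ^ m * X ^ q) (h2 : X * Y ^ q - X ^ q * Y = 1) :
    Y ^ (q ^ 2) + Y = S ^ m * Y ^ q := by
  have : Fact p.Prime := ⟨hp⟩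
  have : CharP K p := charP_of_injective_algebraMap (algebraMap k K).injective p
  have h3 : (X * Y ^ q - X ^ q * Y) ^ q = (X * Y ^ q) ^ q - (X ^ q * Y) ^ q := by
    rw [hq]
    exact sub_pow_char_pow (R := K) (p := p) (n := f) (x := X * Y ^ (p ^ f)) (y := X ^ (p ^ f) * Y)
  rw [h2, one_pow, mul_pow, mul_pow, ← pow_mul, ← pow_mul, ← pow_two] at h3
  have hXq : X ^ q ≠ 0 := pow_ne_zero _ hX
  apply mul_left_cancel₀ hXq
  linear_combination -h2 - h3 + Y ^ q * h1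

open SRS in
theorem srl_thm : S_SRL := by
  intro p k _ f m q hp hchar hf hq hm hcop
  have hpp := hp.two_le
  have hp0 : (p : k) = 0 := CharP.cast_eq_zero k p
  have hpm : ¬ p ∣ m := by
    intro h
    have h2 : Nat.Coprime m p := Nat.Coprime.coprime_mul_right_right hcop
    have h3 : p ∣ Nat.gcd m p := Nat.dvd_gcd h dvd_rfl
    rw [h2.gcd_eq_one] at h3
    have := Nat.le_of_dvd one_pos h3
    omega
  have hm0 : (m : k) ≠ 0 := by
    intro h0
    exact hpm ((CharP.cast_eq_zero_iff k p m).1 h0)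
  have hq2 : 2 ≤ q := by
    rw [hq]
    exact le_trans hpp (Nat.le_self_pow (by omega) p)
  have hqk : ((q + 1 : ℕ) : k) ≠ 0 := by
    rw [hq]
    push_cast
    rw [hp0, zero_pow (by omega), zero_add]
    exact one_ne_zero
  have hQ4 : 4 ≤ q ^ 2 := by nlinarith
  have hA : m * (q + 1) * (q - 1) ≠ 0 := by
    apply Nat.mul_ne_zero
    · apply Nat.mul_ne_zero <;> omega
    · omega
  have hB : m * q * (q ^ 2 - 1) ≠ 0 := by
    apply Nat.mul_ne_zero
    · apply Nat.mul_ne_zero <;> omega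
    · omega
  obtain ⟨u, hu, hup⟩ := root (q + 1) hqk
    (1 - (PowerSeries.X : PowerSeries k) ^ (m * (q + 1) * (q - 1))) (by
      simp [hA])
  set V : PowerSeries k := u⁻¹ with hV
  have huV : u * V = 1 := PowerSeries.mul_inv_cancel u (by rw [hu]; exact one_ne_zero)
  have hVc : PowerSeries.constantCoeff V = 1 := by
    rw [hV, PowerSeries.constantCoeff_inv, hu, inv_one]
  obtain ⟨v, hv, hvp⟩ := root m hm0
    (u ^ (q - 1) + (PowerSeries.X : PowerSeries k) ^ (m * q * (q ^ 2 - 1)) * V ^ (q ^ 2 - q)) (by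
      rw [map_add, map_mul, map_pow, map_pow, map_pow, hu, one_pow, PowerSeries.constantCoeff_X,
        zero_pow hB, zero_mul, add_zero])
  -- identities of power series
  have i1 : V ^ (q + 1) * (1 - (PowerSeries.X : PowerSeries k) ^ (m * (q + 1) * (q - 1))) = 1 := by
    rw [← hup, ← mul_pow, mul_comm V u, huV, one_pow]
  have i2 : v ^ m * V ^ q = V +
      (PowerSeries.X : PowerSeries k) ^ (m * q * (q ^ 2 - 1)) * V ^ (q ^ 2) := by
    have e1 : u ^ (q - 1) * V ^ q = V := by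
      have : q = (q - 1) + 1 := by omega
      calc u ^ (q - 1) * V ^ q = u ^ (q - 1) * V ^ ((q - 1) + 1) := by rw [← this]
        _ = (u * V) ^ (q - 1) * V := by rw [pow_succ, mul_pow]; ring
        _ = V := by rw [huV, one_pow, one_mul]
    have hle : q ≤ q ^ 2 := by nlinarith
    have e2 : V ^ (q ^ 2 - q) * V ^ q = V ^ (q ^ 2) := by
      rw [← pow_add, Nat.sub_add_cancel hle]
    rw [hvp, add_mul, e1, mul_assoc, e2]
  have j1 : L V ^ (q + 1) * (1 - T ((m * (q + 1) * (q - 1) : ℕ) : ℤ)) = 1 := by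
    have := congrArg (HahnSeries.ofPowerSeries ℤ k) i1
    rw [map_mul, map_pow, map_sub, map_one] at this
    rw [← L_X_pow]
    exact this
  have j2 : L v ^ m * L V ^ q = L V + T ((m * q * (q ^ 2 - 1) : ℕ) : ℤ) * L V ^ (q ^ 2) := by
    have := congrArg (HahnSeries.ofPowerSeries ℤ k) i2
    rw [map_mul, map_pow, map_pow, map_add, map_mul, map_pow _ V] at this
    rw [← L_X_pow]
    exact this
  have cq1 : ((q - 1 : ℕ) : ℤ) = (q : ℤ) - 1 := by
    rw [Nat.cast_sub (by omega)]; rfl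
  have cq : ((q ^ 2 - 1 : ℕ) : ℤ) = (q : ℤ) ^ 2 - 1 := by
    rw [Nat.cast_sub (by omega)]; push_cast; ring
  have hXne : (T ((m * q : ℕ) : ℤ) : LaurentSeries k) * L V ≠ 0 := mul_ne_zero (T_ne _) (L_ne V hVc)
  have eX : (T ((m * q : ℕ) : ℤ) * L V : LaurentSeries k) ^ (q ^ 2) + T ((m * q : ℕ) : ℤ) * L V =
      (T (-((q * (q - 1) : ℕ) : ℤ)) * L v) ^ m * (T ((m * q : ℕ) : ℤ) * L V) ^ q := by
    have e1 : (m : ℤ) * (-((q * (q - 1) : ℕ) : ℤ)) + (q : ℤ) * ((m * q : ℕ) : ℤ) =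
        ((m * q : ℕ) : ℤ) := by
      rw [Nat.cast_mul q, cq1]
      push_cast
      ring
    have e2 : ((m * q : ℕ) : ℤ) + ((m * q * (q ^ 2 - 1) : ℕ) : ℤ) =
        ((q ^ 2 : ℕ) : ℤ) * ((m * q : ℕ) : ℤ) := by
      rw [Nat.cast_mul (m * q), cq]
      push_cast
      ring
    calc (T ((m * q : ℕ) : ℤ) * L V : LaurentSeries k) ^ (q ^ 2) + T ((m * q : ℕ) : ℤ) * L V
        = T (((q ^ 2 : ℕ) : ℤ) * ((m * q : ℕ) : ℤ)) * L V ^ (q ^ 2) + T ((m * q : ℕ) : ℤ) * L V := by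
          rw [mul_pow, T_pow]
      _ = T ((m * q : ℕ) : ℤ) *
            (L V + T ((m * q * (q ^ 2 - 1) : ℕ) : ℤ) * L V ^ (q ^ 2)) := by
          rw [← e2, ← T_mul]
          ring
      _ = T ((m * q : ℕ) : ℤ) * (L v ^ m * L V ^ q) := by rw [j2]
      _ = (T ((m : ℤ) * (-((q * (q - 1) : ℕ) : ℤ))) * T ((q : ℤ) * ((m * q : ℕ) : ℤ))) *
            (L v ^ m * L V ^ q) := by rw [T_mul, e1]
      _ = (T (-((q * (q - 1) : ℕ) : ℤ)) * L v) ^ m * (T ((m * q : ℕ) : ℤ) * L V) ^ q := by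
          rw [mul_pow, mul_pow, T_pow, T_pow]
          ring
  have eXY : (T ((m * q : ℕ) : ℤ) * L V : LaurentSeries k) * (T (-(m : ℤ)) * L V) ^ q -
      (T ((m * q : ℕ) : ℤ) * L V) ^ q * (T (-(m : ℤ)) * L V) = 1 := by
    have e1 : ((m * q : ℕ) : ℤ) + (q : ℤ) * (-(m : ℤ)) = 0 := by
      push_cast
      ring
    have e2 : (q : ℤ) * ((m * q : ℕ) : ℤ) + (-(m : ℤ)) = ((m * (q + 1) * (q - 1) : ℕ) : ℤ) := by
      rw [Nat.cast_mul (m * (q + 1)), cq1]
      push_cast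
      ring
    have e3 : (T (0 : ℤ) : LaurentSeries k) = 1 := rfl
    calc (T ((m * q : ℕ) : ℤ) * L V : LaurentSeries k) * (T (-(m : ℤ)) * L V) ^ q -
          (T ((m * q : ℕ) : ℤ) * L V) ^ q * (T (-(m : ℤ)) * L V)
        = (T ((m * q : ℕ) : ℤ) * T ((q : ℤ) * (-(m : ℤ)))) * L V ^ (q + 1) -
          (T ((q : ℤ) * ((m * q : ℕ) : ℤ)) * T (-(m : ℤ))) * L V ^ (q + 1) := by
          rw [mul_pow, mul_pow, T_pow, T_pow]
          ring
      _ = L V ^ (q + 1) * (1 - T ((m * (q + 1) * (q - 1) : ℕ) : ℤ)) := by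
          rw [T_mul, T_mul, e1, e2, e3]
          ring
      _ = 1 := j1
  refine ⟨T (-((q * (q - 1) : ℕ) : ℤ)) * L v, T ((m * q : ℕ) : ℤ) * L V, T (-(m : ℤ)) * L V,
    mul_ne_zero (T_ne _) (L_ne v hv), hXne, mul_ne_zero (T_ne _) (L_ne V hVc), ?_, ?_, ?_, eX, ?_,
    eXY⟩
  · rw [order_T_mul _ v hv]
  · rw [order_T_mul _ V hVc]
  · rw [order_T_mul _ V hVc]
  · exact srl_aux k (LaurentSeries k) p f q m hp hchar hq _ _ _ hXne eX eXY

end Pool.CND
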